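import Pool.Agent.Lib.MP_defcf3_al.FR.NDefs

/-! N-AL: if finitely many algebras over L represent all classes killed by ℓ then the ℓ-torsion of the second cohomology
of the stabilizer of ζ is finite. -/

namespace Pool.Agent.Lib.MP_defcf3_al.FR.H27

open scoped TensorProduct

universe u

open BR7 BR7.H50 BRP Pool.Agent.Lib.MP_defcf3_al.FR

open Matrix in
/-- Transitivity of Brauer equivalence. -/
theorem br_trans {K : Type u} [Field K] {A B E : Type u} [Ring A] [Ring B] [Ring E] [Algebra K A] [Algebra K B]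
    [Algebra K E] {n m p q : ℕ} (iso1 : Matrix (Fin n) (Fin n) A ≃ₐ[K] Matrix (Fin m) (Fin m) E)
    (iso2 : Matrix (Fin p) (Fin p) E ≃ₐ[K] Matrix (Fin q) (Fin q) B) :
    Nonempty (Matrix (Fin (p * n)) (Fin (p * n)) A ≃ₐ[K] Matrix (Fin (m * q)) (Fin (m * q)) B) :=
  ⟨reindexAlgEquiv _ _ finProdFinEquiv |>.symm.trans <| compAlgEquiv _ _ _ _|>.symm.trans <|
    iso1.mapMatrix (m := Fin p)|>.trans <| compAlgEquiv _ _ _ _|>.trans <|
    reindexAlgEquiv K E (.prodComm (Fin p) (Fin m))|>.trans <| compAlgEquiv _ _ _ _|>.symm.trans <|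
    iso2.mapMatrix.trans <| compAlgEquiv _ _ _ _|>.trans <| reindexAlgEquiv _ _ finProdFinEquiv⟩

/-- Finiteness over L. -/
theorem al_field {ℓ : ℕ} {L Ω : Type u} [Field L] [Field Ω] [Algebra L Ω] [IsGalois L Ω]
    (hfin : FinBr ℓ L) : Set.Finite {c : H2 (Ω ≃ₐ[L] Ω) Ωˣ | c ^ ℓ = 1} := by
  classical
  obtain ⟨N, E, _, _, hE⟩ := hfin
  have hOp : RepOpStatement.{u, 0} := BR7.H50.repop
  have hOne : RepOneStatement.{u} := BR7.H50.repone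
  -- choose an algebra for every class
  have h1 : ∀ c : H2 (Ω ≃ₐ[L] Ω) Ωˣ,
      ∃ (f : _) (_ : f ∈ Z2 (Ω ≃ₐ[L] Ω) Ωˣ) (_ : cls _ _ f = c) (A : Type u) (_ : Ring A) (_ : Algebra L A) (n : ℕ),
        Nonempty (RepData L Ω A (Fin n) f) := by
    intro c
    obtain ⟨⟨f, hf⟩, rfl⟩ := QuotientGroup.mk_surjective c
    obtain ⟨N, hN, hNo, hNf⟩ := BR7.H79.factor L Ω f hf
    obtain ⟨A, r1, r2, ⟨hA⟩, -⟩ := BR7.H50.Full.desc L Ω f hf N hN hNo hNf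
    exact ⟨f, hf, BR7.H50.cls_of_mem hf, A, r1, r2, N.index, ⟨hA⟩⟩
  choose f hf hfc A r1 r2 n hA using h1
  have h2 : ∀ c : {c : H2 (Ω ≃ₐ[L] Ω) Ωˣ // c ^ ℓ = 1}, ∃ i : Fin N, ∃ r s : ℕ, r ≠ 0 ∧ s ≠ 0 ∧
      Nonempty (Matrix (Fin r) (Fin r) (A c.1) ≃ₐ[L] Matrix (Fin s) (Fin s) (E i)) := by
    rintro ⟨c, hc⟩
    obtain ⟨R⟩ := hA c
    obtain ⟨c1, c2, c3⟩ := BR7.H79.repcsa L Ω (A c) (Fin (n c)) _ R
    refine hE (A c) ?_
    have hn0 : n c ≠ 0 := by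
      intro h
      obtain ⟨i⟩ := R.ne
      rw [h] at i
      exact i.elim0
    obtain ⟨RT⟩ := H19.pi L Ω ℓ (fun _ => A c) (fun _ => n c) (fun _ => f c) (fun _ => hA c)
    rw [Finset.prod_const, Finset.card_univ, Fintype.card_fin] at RT
    obtain ⟨R1⟩ := (hOp L Ω _ _ _ RT).1 (Fin (n c ^ ℓ))
      (Fintype.equivOfCardEq (by
        rw [Fintype.card_pi, Finset.prod_const, Finset.card_univ, Fintype.card_fin, Fintype.card_fin,
          Fintype.card_fin]))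
    refine ⟨_, split_of_B2 hOp hOne BR7.H50.Full.conv (pow_ne_zero _ hn0) R1 ?_⟩
    rw [← BR7.H50.cls_one_iff (pow_mem (hf c) _), BR7.H50.cls_pow (hf c), hfc c, hc]
  choose i r s hr hs hiso using h2
  have hinj : Function.Injective i := by
    rintro c c' hcc
    obtain ⟨e1⟩ := hiso c
    obtain ⟨e2⟩ := hiso c'
    rw [hcc] at e1
    obtain ⟨e⟩ := br_trans e1 e2.symm
    obtain ⟨R⟩ := hA c.1
    obtain ⟨R'⟩ := hA c'.1
    have h3 := BR7.H50.Full.uniq L Ω (A c.1) (A c'.1) (n c.1) (n c'.1) (f c.1) (f c'.1) R R' _ _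
      (mul_ne_zero (hs c') (hr c)) (mul_ne_zero (hs c) (hr c')) e
    rw [← BR7.H50.cls_eq_iff (hf _) (hf _), hfc, hfc] at h3
    exact Subtype.ext h3
  exact Set.finite_coe_iff.1 (Finite.of_injective i hinj)

/-- Translation to the stabilizer of ζ. -/
theorem al_trans {ℓ : ℕ} [Fact ℓ.Prime] [Fact (Odd ℓ)] {F L Ω : Type u} [Field F] [Field L] [Field Ω] [Algebra F L]
    [Algebra L Ω] [Algebra F Ω] [IsScalarTower F L Ω] [IsGalois F Ω] {ζ : Ωˣ} (hζ : IsPrimitiveRoot ζ ℓ)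
    (hL : IsCyclotomicExtension {ℓ} F L) (h : Set.Finite {c : H2 (Ω ≃ₐ[L] Ω) Ωˣ | c ^ ℓ = 1}) :
    Set.Finite {c : H2 (HZ F ζ) Ωˣ | c ^ ℓ = 1} := by
  classical
  have hl := (Fact.out : Nat.Prime ℓ)
  have hD : Disc (Ω ≃ₐ[F] Ω) Ωˣ := H4.disc F Ω
  have hcont := BRP.H62.toL_cont hD hζ hL
  -- ζ comes from L
  have hmem : ∃ z : L, algebraMap L Ω z = ζ := by
    obtain ⟨z, hz⟩ := hL.exists_isPrimitiveRoot (Set.mem_singleton ℓ) hl.ne_zero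
    have hz' : IsPrimitiveRoot (algebraMap L Ω z) ℓ := hz.map_of_injective (algebraMap L Ω).injective
    have hζ' : (ζ : Ω) ^ ℓ = 1 := by rw [← Units.val_pow_eq_pow_val, hζ.pow_eq_one, Units.val_one]
    have : NeZero ℓ := ⟨hl.ne_zero⟩
    obtain ⟨i, -, hi⟩ := hz'.eq_pow_of_pow_eq_one hζ'
    exact ⟨z ^ i, by rw [map_pow, hi]⟩
  have hfix : ∀ g : Ω ≃ₐ[L] Ω, BR7.H38.resL F L Ω g ∈ HZ F ζ := by
    intro g
    obtain ⟨z, hz⟩ := hmem
    refine Units.ext ?_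
    show g (ζ : Ω) = ζ
    rw [← hz, g.commutes]
  let ρ : (Ω ≃ₐ[L] Ω) →* HZ F ζ := (BR7.H38.resL F L Ω).codRestrict (HZ F ζ) hfix
  have hρc : Continuous ρ := (BR7.H38.continuous_resL F L Ω).subtype_mk _
  have hρs : ∀ (g : Ω ≃ₐ[L] Ω) (x : Ωˣ), ρ g • x = g • x := fun g x => rfl
  have hpull : ∀ f ∈ Z2 (HZ F ζ) Ωˣ, (fun g h => f (ρ g) (ρ h)) ∈ Z2 (Ω ≃ₐ[L] Ω) Ωˣ := by
    rintro f ⟨h1, h2⟩
    refine ⟨h1.comp_continuous ((hρc.comp continuous_fst).prodMk (hρc.comp continuous_snd)), fun g h k => ?_⟩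
    have := h2 (ρ g) (ρ h) (ρ k)
    rw [← map_mul, ← map_mul, hρs] at this
    exact this
  have hpullB : ∀ f ∈ B2 (HZ F ζ) Ωˣ, (fun g h => f (ρ g) (ρ h)) ∈ B2 (Ω ≃ₐ[L] Ω) Ωˣ := by
    rintro f ⟨b, hb, e⟩
    refine ⟨fun g => b (ρ g), hb.comp_continuous hρc, fun g h => ?_⟩
    have := e (ρ g) (ρ h)
    rw [← map_mul, hρs] at this
    exact this
  have hinv : ∀ g : HZ F ζ, ρ (BRP.H62.toL hζ hL g) = g := fun g => rfl
  have hback : ∀ f : HZ F ζ → HZ F ζ → Ωˣ, (fun g h => f (ρ g) (ρ h)) ∈ B2 (Ω ≃ₐ[L] Ω) Ωˣ →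
      f ∈ B2 (HZ F ζ) Ωˣ := by
    rintro f ⟨b, hb, e⟩
    refine ⟨fun g => b (BRP.H62.toL hζ hL g), hb.comp_continuous hcont, fun g h => ?_⟩
    have := e (BRP.H62.toL hζ hL g) (BRP.H62.toL hζ hL h)
    rw [← map_mul, BRP.H62.toL_smul] at this
    exact this
  choose f hf hfc using fun c : H2 (HZ F ζ) Ωˣ => cls_surj c
  let Φ : H2 (HZ F ζ) Ωˣ → H2 (Ω ≃ₐ[L] Ω) Ωˣ := fun c => cls _ _ (fun g h => f c (ρ g) (ρ h))
  refine Set.Finite.of_finite_image (f := Φ) (h.subset ?_) ?_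
  · rintro _ ⟨c, hc, rfl⟩
    have hc : c ^ ℓ = 1 := hc
    show cls _ _ (fun g h => f c (ρ g) (ρ h)) ^ ℓ = 1
    rw [← BR7.H50.cls_pow (hpull _ (hf c)), BR7.H50.cls_one_iff (pow_mem (hpull _ (hf c)) _)]
    have h1 : f c ^ ℓ ∈ B2 (HZ F ζ) Ωˣ := by
      rw [← BR7.H50.cls_one_iff (pow_mem (hf c) _), BR7.H50.cls_pow (hf c), hfc c, hc]
    exact hpullB _ h1
  · intro c _ c' _ hcc
    have hcc : cls _ _ (fun g h => f c (ρ g) (ρ h)) = cls _ _ (fun g h => f c' (ρ g) (ρ h)) := hcc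
    rw [BR7.H50.cls_eq_iff (hpull _ (hf c)) (hpull _ (hf c'))] at hcc
    have h1 := hback (f c * (f c')⁻¹) hcc
    rw [← BR7.H50.cls_eq_iff (hf c) (hf c'), hfc, hfc] at h1
    exact h1

/-- N-AL. -/
theorem al {ℓ : ℕ} [Fact ℓ.Prime] [Fact (Odd ℓ)] : StAL.{u} ℓ := by
  intro F L _ _ _ h7 hL hfin ζ hζ
  have : NeZero ((ℓ : ℕ) : F) := ⟨h7⟩
  have hfdL : FiniteDimensional F L := IsCyclotomicExtension.finiteDimensional {ℓ} F L
  have hsep : Algebra.IsSeparable F L := IsCyclotomicExtension.isSeparable {ℓ} F L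
  let φ : L →ₐ[F] SeparableClosure F := IsSepClosed.lift
  let _ : Algebra L (SeparableClosure F) := φ.toRingHom.toAlgebra
  have : IsScalarTower F L (SeparableClosure F) := IsScalarTower.of_algebraMap_eq' φ.comp_algebraMap.symm
  have hg : IsGalois L (SeparableClosure F) := IsGalois.tower_top_of_isGalois F L (SeparableClosure F)
  exact al_trans hζ hL (al_field hfin)

end Pool.Agent.Lib.MP_defcf3_al.FR.H27
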